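import Mathlib

/-!
# A subadditive function on the lattice whose scaling defect is small is close to its time constant
-/

set_option autoImplicit false
open Filter

namespace Pool.Agent.U17.FD

/-- the size of a lattice point -/
def nrm (v : ℤ × ℤ) : ℝ := max |(v.1 : ℝ)| |(v.2 : ℝ)|

theorem nrm_nonneg (v : ℤ × ℤ) : 0 ≤ nrm v := le_max_of_le_left (abs_nonneg _)

theorem nrm_smul (N : ℕ) (v : ℤ × ℤ) : nrm ((N : ℤ) • v) = N * nrm v := by
  unfold nrm
  have e1 : ((((N : ℤ) • v).1 : ℤ) : ℝ) = N * (v.1 : ℝ) := by simp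
  have e2 : ((((N : ℤ) • v).2 : ℤ) : ℝ) = N * (v.2 : ℝ) := by simp
  rw [e1, e2, abs_mul, abs_mul, Nat.abs_cast, mul_max_of_nonneg _ _ (Nat.cast_nonneg N)]

theorem nrm_neg (v : ℤ × ℤ) : nrm (-v) = nrm v := by
  unfold nrm
  simp

theorem nrm_le_add (v w : ℤ × ℤ) : nrm w ≤ nrm v + nrm (v - w) := by
  unfold nrm
  have e1 : (((v - w).1 : ℤ) : ℝ) = (v.1 : ℝ) - w.1 := by simp
  have e2 : (((v - w).2 : ℤ) : ℝ) = (v.2 : ℝ) - w.2 := by simp
  rw [e1, e2]
  refine max_le ?_ ?_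
  · have h1 := abs_sub_abs_le_abs_sub (w.1 : ℝ) (v.1 : ℝ)
    rw [abs_sub_comm] at h1
    have h2 := le_max_left |(v.1 : ℝ)| |(v.2 : ℝ)|
    have h3 := le_max_left |(v.1 : ℝ) - w.1| |(v.2 : ℝ) - w.2|
    linarith
  · have h1 := abs_sub_abs_le_abs_sub (w.2 : ℝ) (v.2 : ℝ)
    rw [abs_sub_comm] at h1
    have h2 := le_max_right |(v.1 : ℝ)| |(v.2 : ℝ)|
    have h3 := le_max_right |(v.1 : ℝ) - w.1| |(v.2 : ℝ) - w.2|
    linarith

/-- a subadditive function grows at most linearly -/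
theorem lin (m : ℤ × ℤ → ℝ) (hm : ∀ v w, m (v + w) ≤ m v + m w) :
    ∃ L : ℝ, 0 ≤ L ∧ ∀ v, m v ≤ L * (1 + nrm v) := by
  obtain ⟨L, hL0, h0, h1, h2, h3, h4⟩ : ∃ L : ℝ, 0 ≤ L ∧ m (0, 0) ≤ L ∧ m (1, 0) ≤ L ∧
      m (-1, 0) ≤ L ∧ m (0, 1) ≤ L ∧ m (0, -1) ≤ L := by
    have b0 := abs_nonneg (m (0, 0))
    have b1 := abs_nonneg (m (1, 0))
    have b2 := abs_nonneg (m (-1, 0))
    have b3 := abs_nonneg (m (0, 1))
    have b4 := abs_nonneg (m (0, -1))
    have a0 := le_abs_self (m (0, 0))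
    have a1 := le_abs_self (m (1, 0))
    have a2 := le_abs_self (m (-1, 0))
    have a3 := le_abs_self (m (0, 1))
    have a4 := le_abs_self (m (0, -1))
    refine ⟨|m (0, 0)| + |m (1, 0)| + |m (-1, 0)| + |m (0, 1)| + |m (0, -1)|, by positivity,
      ?_, ?_, ?_, ?_, ?_⟩ <;> linarith
  have hA : ∀ a : ℤ, m (a, 0) ≤ L * (1 + |(a : ℝ)|) := by
    intro a
    induction a using Int.induction_on with
    | zero => simpa using h0
    | succ i ih =>
      have h := hm ((i : ℤ), 0) (1, 0)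
      have e : (((i : ℤ), (0 : ℤ)) + (1, 0) : ℤ × ℤ) = ((i : ℤ) + 1, 0) := by simp
      rw [e] at h
      have e2 : |(((i : ℤ) + 1 : ℤ) : ℝ)| = |((i : ℤ) : ℝ)| + 1 := by
        push_cast
        rw [abs_of_nonneg (by positivity), abs_of_nonneg (by positivity)]
      rw [e2]
      have e3 : L * (1 + (|((i : ℤ) : ℝ)| + 1)) = L * (1 + |((i : ℤ) : ℝ)|) + L := by ring
      rw [e3]
      linarith
    | pred i ih =>
      have h := hm (-(i : ℤ), 0) (-1, 0)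
      have e : ((-(i : ℤ), (0 : ℤ)) + (-1, 0) : ℤ × ℤ) = (-(i : ℤ) - 1, 0) := by
        ext <;> simp [sub_eq_add_neg]
      rw [e] at h
      have e2 : |((-(i : ℤ) - 1 : ℤ) : ℝ)| = |((-(i : ℤ) : ℤ) : ℝ)| + 1 := by
        push_cast
        rw [abs_neg, abs_of_nonneg (by positivity : (0 : ℝ) ≤ (i : ℝ)),
          abs_of_nonpos (by
            have : (0 : ℝ) ≤ (i : ℝ) := by positivity
            linarith)]
        ring
      rw [e2]
      have e3 : L * (1 + (|((-(i : ℤ) : ℤ) : ℝ)| + 1)) =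
          L * (1 + |((-(i : ℤ) : ℤ) : ℝ)|) + L := by ring
      rw [e3]
      linarith
  have hB : ∀ a : ℤ, m (0, a) ≤ L * (1 + |(a : ℝ)|) := by
    intro a
    induction a using Int.induction_on with
    | zero => simpa using h0
    | succ i ih =>
      have h := hm (0, (i : ℤ)) (0, 1)
      have e : (((0 : ℤ), (i : ℤ)) + (0, 1) : ℤ × ℤ) = (0, (i : ℤ) + 1) := by simp
      rw [e] at h
      have e2 : |(((i : ℤ) + 1 : ℤ) : ℝ)| = |((i : ℤ) : ℝ)| + 1 := by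
        push_cast
        rw [abs_of_nonneg (by positivity), abs_of_nonneg (by positivity)]
      rw [e2]
      have e3 : L * (1 + (|((i : ℤ) : ℝ)| + 1)) = L * (1 + |((i : ℤ) : ℝ)|) + L := by ring
      rw [e3]
      linarith
    | pred i ih =>
      have h := hm (0, -(i : ℤ)) (0, -1)
      have e : (((0 : ℤ), -(i : ℤ)) + (0, -1) : ℤ × ℤ) = (0, -(i : ℤ) - 1) := by
        ext <;> simp [sub_eq_add_neg]
      rw [e] at h
      have e2 : |((-(i : ℤ) - 1 : ℤ) : ℝ)| = |((-(i : ℤ) : ℤ) : ℝ)| + 1 := by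
        push_cast
        rw [abs_neg, abs_of_nonneg (by positivity : (0 : ℝ) ≤ (i : ℝ)),
          abs_of_nonpos (by
            have : (0 : ℝ) ≤ (i : ℝ) := by positivity
            linarith)]
        ring
      rw [e2]
      have e3 : L * (1 + (|((-(i : ℤ) : ℤ) : ℝ)| + 1)) =
          L * (1 + |((-(i : ℤ) : ℤ) : ℝ)|) + L := by ring
      rw [e3]
      linarith
  refine ⟨2 * L, by linarith, fun v => ?_⟩
  obtain ⟨a, b⟩ := v
  have h := hm (a, 0) (0, b)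
  have e : (((a : ℤ), (0 : ℤ)) + (0, b) : ℤ × ℤ) = (a, b) := by simp
  rw [e] at h
  have ha := hA a
  have hb := hB b
  have n1 : |(a : ℝ)| ≤ nrm (a, b) := le_max_left _ _
  have n2 : |(b : ℝ)| ≤ nrm (a, b) := le_max_right _ _
  have k1 := mul_le_mul_of_nonneg_left n1 hL0
  have k2 := mul_le_mul_of_nonneg_left n2 hL0
  have e4 : 2 * L * (1 + nrm (a, b)) = (L + L * nrm (a, b)) + (L + L * nrm (a, b)) := by ring
  have e5 : L * (1 + |(a : ℝ)|) = L + L * |(a : ℝ)| := by ring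
  have e6 : L * (1 + |(b : ℝ)|) = L + L * |(b : ℝ)| := by ring
  rw [e4]
  rw [e5] at ha
  rw [e6] at hb
  linarith

section
variable {m μ : ℤ × ℤ → ℝ} {κ : ℝ} {N : ℕ}

theorem one_le_X (v : ℤ × ℤ) (h1 : κ < 1) : 1 ≤ (1 + nrm v) ^ (1 - κ) :=
  Real.one_le_rpow (by linarith [nrm_nonneg v]) (by linarith)

theorem X_le (v : ℤ × ℤ) (h0 : 0 < κ) : (1 + nrm v) ^ (1 - κ) ≤ 1 + nrm v := by
  have := Real.rpow_le_rpow_of_exponent_le (by linarith [nrm_nonneg v] : 1 ≤ 1 + nrm v)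
    (by linarith : 1 - κ ≤ 1)
  rwa [Real.rpow_one] at this

/-- from a sparse set to all points -/
theorem defect_all (hsub : ∀ v w, m (v + w) ≤ m v + m w) (h0 : 0 < κ) (h1 : κ < 1)
    (hN : 2 ≤ N) {W : Set (ℤ × ℤ)} {C : ℝ} (hC : 0 ≤ C)
    (hW : ∀ v, ∃ w ∈ W, nrm (v - w) ≤ C * (1 + nrm v) ^ (1 - κ)) {B : ℝ}
    (hB : ∀ w ∈ W, N * m w - m ((N : ℤ) • w) ≤ B * (1 + nrm w) ^ (1 - κ)) :
    ∃ B' : ℝ, 0 ≤ B' ∧ ∀ v, N * m v - m ((N : ℤ) • v) ≤ B' * (1 + nrm v) ^ (1 - κ) := by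
  obtain ⟨L, hL, hl⟩ := lin m hsub
  have hNr : (2 : ℝ) ≤ N := by exact_mod_cast hN
  refine ⟨max B 0 * (1 + C) + 2 * N * L * (1 + C), by positivity, fun v => ?_⟩
  obtain ⟨w, hw, hd⟩ := hW v
  have hd0 : 0 ≤ nrm (v - w) := nrm_nonneg _
  have hX1 := one_le_X (κ := κ) v h1
  have hX2 := X_le (κ := κ) v h0
  set X := (1 + nrm v) ^ (1 - κ) with hX
  set d := nrm (v - w) with hdd
  have k1 : m v ≤ m w + L * (1 + d) := by
    have h := hsub w (v - w)
    rw [add_sub_cancel] at h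
    exact h.trans (by linarith [hl (v - w)])
  have k2 : m ((N : ℤ) • w) ≤ m ((N : ℤ) • v) + L * (1 + N * d) := by
    have h := hsub ((N : ℤ) • v) ((N : ℤ) • (w - v))
    have e : (N : ℤ) • v + (N : ℤ) • (w - v) = (N : ℤ) • w := by
      rw [← smul_add]
      congr 1
      abel
    rw [e] at h
    have h2 := hl ((N : ℤ) • (w - v))
    have hn : nrm (w - v) = d := by rw [hdd, ← nrm_neg, neg_sub]
    rw [nrm_smul, hn] at h2
    linarith
  have k3 := hB w hw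
  have k4 : (1 + nrm w) ^ (1 - κ) ≤ (1 + C) * X := by
    have l1 : 1 + nrm w ≤ (1 + C) * (1 + nrm v) := by
      have := nrm_le_add v w
      have l2 : C * X ≤ C * (1 + nrm v) := mul_le_mul_of_nonneg_left hX2 hC
      have l3 : (1 + C) * (1 + nrm v) = (1 + nrm v) + C * (1 + nrm v) := by ring
      rw [l3]
      linarith
    have l4 := Real.rpow_le_rpow (by linarith [nrm_nonneg w]) l1 (by linarith : 0 ≤ 1 - κ)
    rw [Real.mul_rpow (by linarith) (by linarith [nrm_nonneg v])] at l4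
    have l5 : (1 + C) ^ (1 - κ) ≤ 1 + C := by
      have := Real.rpow_le_rpow_of_exponent_le (by linarith : 1 ≤ 1 + C)
        (by linarith : 1 - κ ≤ 1)
      rwa [Real.rpow_one] at this
    exact l4.trans (mul_le_mul_of_nonneg_right l5 (by positivity))
  have k5 : B * (1 + nrm w) ^ (1 - κ) ≤ max B 0 * ((1 + C) * X) := by
    refine (mul_le_mul_of_nonneg_right (le_max_left B 0) ?_).trans
      (mul_le_mul_of_nonneg_left k4 (le_max_right _ _))
    exact Real.rpow_nonneg (by linarith [nrm_nonneg w]) _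
  have k6 : 1 + d ≤ (1 + C) * X := by nlinarith
  have k7 : N * (L * (1 + d)) ≤ N * (L * ((1 + C) * X)) := by gcongr
  have k8 : L * (1 + N * d) ≤ N * (L * ((1 + C) * X)) := by
    have l1 : 1 + N * d ≤ N * (1 + d) := by nlinarith
    calc L * (1 + N * d) ≤ L * (N * (1 + d)) := mul_le_mul_of_nonneg_left l1 hL
      _ = N * (L * (1 + d)) := by ring
      _ ≤ _ := k7
  have k9 : N * m v ≤ N * m w + N * (L * (1 + d)) := by
    have := mul_le_mul_of_nonneg_left k1 (by linarith : (0 : ℝ) ≤ N)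
    linarith
  have e : (max B 0 * (1 + C) + 2 * N * L * (1 + C)) * X =
      max B 0 * ((1 + C) * X) + N * (L * ((1 + C) * X)) + N * (L * ((1 + C) * X)) := by ring
  rw [e]
  linarith

/-- the iteration -/
theorem up (hsub : ∀ v w, m (v + w) ≤ m v + m w) (hμN : ∀ (n : ℕ) v, μ ((n : ℤ) • v) = n * μ v)
    (hlim : ∀ v, ∀ ε : ℝ, 0 < ε → ∀ᶠ n : ℕ in atTop, m ((n : ℤ) • v) ≤ n * μ v + ε * n)
    (h0 : 0 < κ) (h1 : κ < 1)
    (hN : 2 ≤ N) {W : Set (ℤ × ℤ)} {C : ℝ} (hC : 0 ≤ C)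
    (hW : ∀ v, ∃ w ∈ W, nrm (v - w) ≤ C * (1 + nrm v) ^ (1 - κ)) {B : ℝ}
    (hB : ∀ w ∈ W, N * m w - m ((N : ℤ) • w) ≤ B * (1 + nrm w) ^ (1 - κ)) :
    ∃ A : ℝ, 0 ≤ A ∧ ∀ v, m v ≤ μ v + A * (1 + nrm v) ^ (1 - κ) := by
  obtain ⟨B', hB'0, hB'⟩ := defect_all hsub h0 h1 hN hC hW hB
  have hNr : (2 : ℝ) ≤ N := by exact_mod_cast hN
  have hN0 : (0 : ℝ) < N := by linarith
  set ρ : ℝ := (N : ℝ) ^ (-κ) with hρ
  have hρ0 : 0 < ρ := Real.rpow_pos_of_pos hN0 _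
  have hρ1 : ρ < 1 := Real.rpow_lt_one_of_one_lt_of_neg (by linarith) (by linarith)
  have hNρ : (N : ℝ) ^ (1 - κ) = N * ρ := by
    have h := Real.rpow_add hN0 1 (-κ)
    rw [Real.rpow_one] at h
    rw [sub_eq_add_neg]
    exact h
  set S : ℝ := B' / (N * (1 - ρ)) with hS
  have hS0 : 0 ≤ S := by
    have : 0 < 1 - ρ := by linarith
    positivity
  have hSe : B' = N * (1 - ρ) * S := by
    have h2 : 1 - ρ ≠ 0 := by
      have : 0 < 1 - ρ := by linarith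
      exact this.ne'
    have h3 : (N : ℝ) ≠ 0 := hN0.ne'
    rw [hS]
    field_simp
  have key : ∀ J : ℕ, ∀ v, m v - μ v ≤ S * (1 + nrm v) ^ (1 - κ) +
      (m (((N ^ J : ℕ) : ℤ) • v) - μ (((N ^ J : ℕ) : ℤ) • v)) / ((N ^ J : ℕ) : ℝ) := by
    intro J
    induction J with
    | zero =>
      intro v
      have hX1 := one_le_X (κ := κ) v h1
      have : 0 ≤ S * (1 + nrm v) ^ (1 - κ) := by positivity
      simp only [pow_zero, Nat.cast_one, one_smul, div_one]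
      linarith
    | succ J ih =>
      intro v
      have i1 := ih ((N : ℤ) • v)
      have i2 := hB' v
      have i3 := hμN N v
      have hX0 : 0 ≤ (1 + nrm v) ^ (1 - κ) := Real.rpow_nonneg (by linarith [nrm_nonneg v]) _
      have i4 : (1 + nrm ((N : ℤ) • v)) ^ (1 - κ) ≤ N * ρ * (1 + nrm v) ^ (1 - κ) := by
        rw [← hNρ, ← Real.mul_rpow hN0.le (by linarith [nrm_nonneg v]), nrm_smul]
        refine Real.rpow_le_rpow ?_ ?_ (by linarith)
        · have := nrm_nonneg v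
          positivity
        · nlinarith [nrm_nonneg v]
      have e1 : ((N ^ J : ℕ) : ℤ) • ((N : ℤ) • v) = ((N ^ (J + 1) : ℕ) : ℤ) • v := by
        rw [smul_smul, pow_succ, Nat.cast_mul]
      rw [e1] at i1
      set G := m (((N ^ (J + 1) : ℕ) : ℤ) • v) - μ (((N ^ (J + 1) : ℕ) : ℤ) • v) with hG
      have e2 : G / ((N ^ (J + 1) : ℕ) : ℝ) = G / ((N ^ J : ℕ) : ℝ) / N := by
        push_cast
        rw [pow_succ, div_div]
      rw [e2]
      set G' := G / ((N ^ J : ℕ) : ℝ) with hG'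
      have i5 : S * (1 + nrm ((N : ℤ) • v)) ^ (1 - κ) ≤ S * (N * ρ * (1 + nrm v) ^ (1 - κ)) :=
        mul_le_mul_of_nonneg_left i4 hS0
      have i6 : N * (m v - μ v) ≤ N * (S * (1 + nrm v) ^ (1 - κ)) + G' := by
        have j1 : N * (m v - μ v) = (N * m v - m ((N : ℤ) • v)) +
            (m ((N : ℤ) • v) - μ ((N : ℤ) • v)) := by
          rw [i3]; ring
        rw [hSe] at i2
        have j2 : N * (S * (1 + nrm v) ^ (1 - κ)) = N * (1 - ρ) * S * (1 + nrm v) ^ (1 - κ) +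
            S * (N * ρ * (1 + nrm v) ^ (1 - κ)) := by ring
        rw [j1, j2]
        linarith
      have i7 : m v - μ v ≤ (N * (S * (1 + nrm v) ^ (1 - κ)) + G') / N := by
        rw [le_div_iff₀ hN0]
        linarith
      refine i7.trans (le_of_eq ?_)
      field_simp
  refine ⟨S, hS0, fun v => ?_⟩
  refine le_of_forall_pos_le_add fun ε hε => ?_
  have ht : Tendsto (fun J : ℕ => N ^ J) atTop atTop :=
    tendsto_pow_atTop_atTop_of_one_lt (by omega)
  obtain ⟨J, hJ⟩ := (ht.eventually (hlim v ε hε)).exists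
  have k := key J v
  rw [hμN] at k
  have hNJ : (0 : ℝ) < ((N ^ J : ℕ) : ℝ) := by
    have : 0 < N ^ J := pow_pos (by omega) _
    exact_mod_cast this
  have k2 : (m (((N ^ J : ℕ) : ℤ) • v) - ((N ^ J : ℕ) : ℝ) * μ v) / ((N ^ J : ℕ) : ℝ) ≤ ε := by
    rw [div_le_iff₀ hNJ]
    linarith
  linarith

end

end Pool.Agent.U17.FD
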