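import Pool.Agent.U874.FP.Two
import Pool.Agent.U17.FD.Abs

/-!
# First-passage percolation: the shape fluctuations in terms of finite distances
-/

set_option autoImplicit false
open MeasureTheory ProbabilityTheory Filter Set
open scoped ENNReal Topology Pointwise

namespace Pool.Agent.U17.FD

open Pool.Agent.N662.FP Pool.Agent.U874.FP

variable {Ω : Type} [MeasureSpace Ω] [IsProbabilityMeasure (volume : Measure Ω)]
  {X : Sym2 (ℤ × ℤ) → Ω → ℝ}

/-- the mean passage time -/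
noncomputable def mean (T : Ω → ℤ × ℤ → ℝ) (v : ℤ × ℤ) : ℝ := ∫ ω, T ω v ∂(volume : Measure Ω)

/-- the defect of the means at the factor `N` -/
def Def (T : Ω → ℤ × ℤ → ℝ) (N : ℕ) (W : Set (ℤ × ℤ)) (κ : ℝ) : Prop :=
  ∃ B : ℝ, ∀ w ∈ W, N * mean T w - mean T ((N : ℤ) • w) ≤ B * (1 + nrm w) ^ (1 - κ)

/-- lower tails about the mean -/
def Lo (T : Ω → ℤ × ℤ → ℝ) (κ q : ℝ) : Prop :=
  ∃ C : ℝ, ∀ v : ℤ × ℤ, (volume : Measure Ω).real {ω | T ω v ≤ mean T v - (1 + nrm v) ^ (1 - κ)} ≤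
    C * (1 + nrm v) ^ (-q)

/-- mean absolute deviation -/
def Dev (T : Ω → ℤ × ℤ → ℝ) (W : Set (ℤ × ℤ)) (κ : ℝ) : Prop :=
  ∃ A : ℝ, ∀ w ∈ W, ∫ ω, |T ω w - mean T w| ∂(volume : Measure Ω) ≤
    A * (1 + nrm w) ^ (1 - κ)

/-- the set `W` is dense at the scale `|v| ^ (1 - κ)` -/
def Net (W : Set (ℤ × ℤ)) (κ : ℝ) : Prop :=
  ∃ C : ℝ, ∀ v : ℤ × ℤ, ∃ w ∈ W, nrm (v - w) ≤ C * (1 + nrm v) ^ (1 - κ)

theorem mean_sub (hX : Iid X) (v w : ℤ × ℤ) :
    mean (fun ω v => D (env X ω) 0 v) (v + w) ≤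
      mean (fun ω v => D (env X ω) 0 v) v + mean (fun ω v => D (env X ω) 0 v) w := by
  unfold mean
  have e := cTI Ω X hX v w
  rw [← e, ← integral_add (cINT Ω X hX 0 v) (cINT Ω X hX v (v + w))]
  refine integral_mono_ae (cINT Ω X hX 0 (v + w))
    ((cINT Ω X hX 0 v).add (cINT Ω X hX v (v + w))) ?_
  filter_upwards [cAE Ω X hX] with ω hω
  exact cTRI (env X ω) hω 0 v (v + w)

theorem net_facts {κ C : ℝ} (h0 : 0 < κ) (h1 : κ < 1) (hC : 0 ≤ C) {v w : ℤ × ℤ}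
    (hd : nrm (v - w) ≤ C * (1 + nrm v) ^ (1 - κ)) :
    (1 + nrm w) ^ (1 - κ) ≤ (1 + C) * (1 + nrm v) ^ (1 - κ) ∧
    1 + nrm (v - w) ≤ (1 + C) * (1 + nrm v) ^ (1 - κ) := by
  have hd0 : 0 ≤ nrm (v - w) := nrm_nonneg _
  have hX1 := one_le_X (κ := κ) v h1
  have hX2 := X_le (κ := κ) v h0
  constructor
  · have l1 : 1 + nrm w ≤ (1 + C) * (1 + nrm v) := by
      have := nrm_le_add v w
      have l2 : C * (1 + nrm v) ^ (1 - κ) ≤ C * (1 + nrm v) := mul_le_mul_of_nonneg_left hX2 hC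
      have l3 : (1 + C) * (1 + nrm v) = (1 + nrm v) + C * (1 + nrm v) := by ring
      rw [l3]
      linarith
    have l4 := Real.rpow_le_rpow (by linarith [nrm_nonneg w]) l1 (by linarith : 0 ≤ 1 - κ)
    rw [Real.mul_rpow (by linarith) (by linarith [nrm_nonneg v])] at l4
    have l5 : (1 + C) ^ (1 - κ) ≤ 1 + C := by
      have := Real.rpow_le_rpow_of_exponent_le (by linarith : 1 ≤ 1 + C)
        (by linarith : 1 - κ ≤ 1)
      rwa [Real.rpow_one] at this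
    exact l4.trans (mul_le_mul_of_nonneg_right l5 (by linarith))
  · nlinarith

/-- the deviation on a sparse set determines the deviation everywhere -/
theorem dev_all (hX : Iid X) {T : Ω → ℤ × ℤ → ℝ} (hT : T = fun ω v => D (env X ω) 0 v)
    {κ : ℝ} (h0 : 0 < κ) (h1 : κ < 1) {W : Set (ℤ × ℤ)} (hW : Net W κ) (h : Dev T W κ) :
    Dev T Set.univ κ := by
  have hsub : ∀ v w, mean T (v + w) ≤ mean T v + mean T w := by
    rw [hT]; exact mean_sub hX
  obtain ⟨L, hL, hl⟩ := lin (mean T) hsub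
  obtain ⟨C, hC⟩ := hW
  obtain ⟨A, hA⟩ := h
  refine ⟨max A 0 * (1 + max C 0) + 3 * (L * (1 + max C 0)), fun v _ => ?_⟩
  obtain ⟨w, hw, hd⟩ := hC v
  have hX1 := one_le_X (κ := κ) v h1
  have hd' : nrm (v - w) ≤ max C 0 * (1 + nrm v) ^ (1 - κ) :=
    hd.trans (mul_le_mul_of_nonneg_right (le_max_left _ _) (by linarith))
  obtain ⟨f1, f2⟩ := net_facts h0 h1 (le_max_right C 0) hd'
  have hn : nrm (w - v) = nrm (v - w) := by rw [← nrm_neg, neg_sub]
  have g1 : mean T (v - w) ≤ L * (1 + nrm (v - w)) := hl _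
  have g2 : mean T (w - v) ≤ L * (1 + nrm (v - w)) := by
    have := hl (w - v)
    rwa [hn] at this
  have g3 : |mean T w - mean T v| ≤ L * (1 + nrm (v - w)) := by
    have a1 := hsub v (w - v)
    have a2 := hsub w (v - w)
    rw [add_sub_cancel] at a1 a2
    rw [abs_le]
    constructor <;> linarith
  have i1 : Integrable (fun ω => D (env X ω) w v) (volume : Measure Ω) := cINT Ω X hX w v
  have i2 : Integrable (fun ω => D (env X ω) v w) (volume : Measure Ω) := cINT Ω X hX v w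
  have iw : Integrable (fun ω => |T ω w - mean T w|) (volume : Measure Ω) := by
    have : Integrable (fun ω => T ω w) (volume : Measure Ω) := by rw [hT]; exact cINT Ω X hX 0 w
    exact (this.sub (integrable_const _)).abs
  have iv : Integrable (fun ω => |T ω v - mean T v|) (volume : Measure Ω) := by
    have : Integrable (fun ω => T ω v) (volume : Measure Ω) := by rw [hT]; exact cINT Ω X hX 0 v
    exact (this.sub (integrable_const _)).abs
  have e1 : ∫ ω, D (env X ω) w v ∂(volume : Measure Ω) = mean T (v - w) := by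
    have := cTI Ω X hX w (v - w)
    rw [add_sub_cancel] at this
    rw [this, hT]
    rfl
  have e2 : ∫ ω, D (env X ω) v w ∂(volume : Measure Ω) = mean T (w - v) := by
    have := cTI Ω X hX v (w - v)
    rw [add_sub_cancel] at this
    rw [this, hT]
    rfl
  have k : ∫ ω, |T ω v - mean T v| ∂(volume : Measure Ω) ≤
      ∫ ω, (|T ω w - mean T w| + (D (env X ω) w v + D (env X ω) v w) +
        |mean T w - mean T v|) ∂(volume : Measure Ω) := by
    refine integral_mono_ae iv ((iw.add (i1.add i2)).add (integrable_const _)) ?_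
    filter_upwards [cAE Ω X hX] with ω hω
    have b1 := cTRI (env X ω) hω 0 w v
    have b2 := cTRI (env X ω) hω 0 v w
    have b3 : 0 ≤ D (env X ω) w v := (cGE (env X ω) hω w v).2.2.1
    have b4 : 0 ≤ D (env X ω) v w := (cGE (env X ω) hω v w).2.2.1
    have b5 : T ω v = D (env X ω) 0 v := by rw [hT]
    have b6 : T ω w = D (env X ω) 0 w := by rw [hT]
    have b7 : |T ω v - T ω w| ≤ D (env X ω) w v + D (env X ω) v w := by
      rw [b5, b6, abs_le]
      constructor <;> linarith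
    have b8 : |T ω v - mean T v| ≤ |T ω v - T ω w| + |T ω w - mean T w| +
        |mean T w - mean T v| := by
      have c1 := abs_sub_le (T ω v) (T ω w) (mean T v)
      have c2 := abs_sub_le (T ω w) (mean T w) (mean T v)
      linarith
    show |T ω v - mean T v| ≤ |T ω w - mean T w| + (D (env X ω) w v + D (env X ω) v w) +
        |mean T w - mean T v|
    linarith
  have a1 : ∫ ω, (D (env X ω) w v + D (env X ω) v w) ∂(volume : Measure Ω) =
      ∫ ω, D (env X ω) w v ∂(volume : Measure Ω) + ∫ ω, D (env X ω) v w ∂(volume : Measure Ω) :=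
    integral_add i1 i2
  have a2 : ∫ ω, (|T ω w - mean T w| + (D (env X ω) w v + D (env X ω) v w))
      ∂(volume : Measure Ω) = ∫ ω, |T ω w - mean T w| ∂(volume : Measure Ω) +
      ∫ ω, (D (env X ω) w v + D (env X ω) v w) ∂(volume : Measure Ω) :=
    integral_add iw (i1.add i2)
  have a3 : ∫ ω, (|T ω w - mean T w| + (D (env X ω) w v + D (env X ω) v w) +
      |mean T w - mean T v|) ∂(volume : Measure Ω) =
      ∫ ω, (|T ω w - mean T w| + (D (env X ω) w v + D (env X ω) v w)) ∂(volume : Measure Ω) +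
      ∫ _ω : Ω, |mean T w - mean T v| ∂(volume : Measure Ω) :=
    integral_add (iw.add (i1.add i2)) (integrable_const _)
  rw [a3, a2, a1, e1, e2] at k
  simp only [integral_const, probReal_univ, one_smul] at k
  have k5 := hA w hw
  have hpw : 0 ≤ (1 + nrm w) ^ (1 - κ) := Real.rpow_nonneg (by linarith [nrm_nonneg w]) _
  have k6 : A * (1 + nrm w) ^ (1 - κ) ≤ max A 0 * ((1 + max C 0) * (1 + nrm v) ^ (1 - κ)) :=
    (mul_le_mul_of_nonneg_right (le_max_left A 0) hpw).trans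
      (mul_le_mul_of_nonneg_left f1 (le_max_right _ _))
  have k7 : L * (1 + nrm (v - w)) ≤ L * ((1 + max C 0) * (1 + nrm v) ^ (1 - κ)) :=
    mul_le_mul_of_nonneg_left f2 hL
  have e : (max A 0 * (1 + max C 0) + 3 * (L * (1 + max C 0))) * (1 + nrm v) ^ (1 - κ) =
      max A 0 * ((1 + max C 0) * (1 + nrm v) ^ (1 - κ)) +
        3 * (L * ((1 + max C 0) * (1 + nrm v) ^ (1 - κ))) := by ring
  rw [e]
  linarith

variable {T : Ω → ℤ × ℤ → ℝ} {μ : Seminorm ℝ (ℝ × ℝ)}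

theorem mean_lim (hG : Good T μ)
    (hlim : ∀ z : ℤ × ℤ, ∀ᵐ ω ∂(volume : Measure Ω),
        Tendsto (fun n : ℕ => T ω ((n : ℤ) • z) / (n : ℝ)) atTop (𝓝 (μ (em z))))
    (v : ℤ × ℤ) (ε : ℝ) (hε : 0 < ε) :
    ∀ᶠ n : ℕ in atTop, mean T ((n : ℤ) • v) ≤ n * μ (em v) + ε * n := by
  have h1 : TendstoInMeasure (volume : Measure Ω)
      (fun (n : ℕ) ω => T ω ((n : ℤ) • v) / (n : ℝ)) atTop (fun _ => μ (em v)) := by
    refine tendstoInMeasure_of_tendsto_ae (fun n => ?_) (hlim v)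
    exact ((hG.int _).div_const _).aestronglyMeasurable
  have h2 := h1 (ENNReal.ofReal (ε / 4)) (by positivity)
  have h3 : ∀ᶠ n : ℕ in atTop, (volume : Measure Ω)
      {ω | ENNReal.ofReal (ε / 4) ≤ edist (T ω ((n : ℤ) • v) / (n : ℝ)) (μ (em v))} <
        ENNReal.ofReal (Real.exp (-(1 + 1))) :=
    h2.eventually (gt_mem_nhds (by positivity))
  filter_upwards [h3, eventually_gt_atTop 0] with n hn hn0
  have hnr : (0 : ℝ) < n := by exact_mod_cast hn0
  have h4 : (volume : Measure Ω).real {ω | μ (em ((n : ℤ) • v)) + ε / 4 * n ≤ T ω ((n : ℤ) • v)} ≤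
      Real.exp (-(1 + 1)) := by
    refine ENNReal.toReal_le_of_le_ofReal (Real.exp_pos _).le (le_trans (measure_mono ?_) hn.le)
    intro ω hω
    have k1 : μ (em ((n : ℤ) • v)) + ε / 4 * n ≤ T ω ((n : ℤ) • v) := hω
    rw [em_nsmul] at k1
    show ENNReal.ofReal (ε / 4) ≤ edist (T ω ((n : ℤ) • v) / (n : ℝ)) (μ (em v))
    rw [edist_dist, Real.dist_eq]
    refine ENNReal.ofReal_le_ofReal (le_trans ?_ (le_abs_self _))
    rw [le_sub_iff_add_le, le_div_iff₀ hnr]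
    linarith
  have h5 := (hG.one ((n : ℤ) • v) (ε / 4 * n) 1 (by positivity) one_pos h4).2
  have h6 : mean T ((n : ℤ) • v) - μ (em ((n : ℤ) • v)) ≤
      ∫ ω, |T ω ((n : ℤ) • v) - μ (em ((n : ℤ) • v))| ∂(volume : Measure Ω) := by
    have k : ∫ ω, (T ω ((n : ℤ) • v) - μ (em ((n : ℤ) • v))) ∂(volume : Measure Ω) ≤
        ∫ ω, |T ω ((n : ℤ) • v) - μ (em ((n : ℤ) • v))| ∂(volume : Measure Ω) :=
      integral_mono ((hG.int ((n : ℤ) • v)).sub (integrable_const _))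
        ((hG.int ((n : ℤ) • v)).sub (integrable_const _)).abs fun ω => le_abs_self _
    rw [integral_sub (hG.int _) (integrable_const _)] at k
    simp only [integral_const, probReal_univ, one_smul] at k
    exact k
  rw [em_nsmul] at h6 h5
  have h7 : 2 * (1 + 1 / (1 : ℝ)) * (ε / 4 * n) = ε * n := by ring
  rw [h7] at h5
  linarith

/-- comparison of powers of `1 + μ` and `1 + nrm` -/
theorem cmp (hμ : ∀ x, μ x = 0 → x = 0) : ∃ a : ℝ, 1 ≤ a ∧ ∀ v : ℤ × ℤ,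
    1 + nrm v ≤ a * (1 + μ (em v)) ∧ 1 + μ (em v) ≤ a * (1 + nrm v) := by
  obtain ⟨c, C, hc, hC, h⟩ := cNORM μ hμ
  refine ⟨1 + 1 / c + C, ?_, fun v => ?_⟩
  · have : 0 < 1 / c := by positivity
    linarith
  · obtain ⟨h1, h2⟩ := h (em v)
    have e : max |(em v).1| |(em v).2| = nrm v := rfl
    rw [e] at h1 h2
    have hn := nrm_nonneg v
    have hm : 0 ≤ μ (em v) := apply_nonneg μ _
    have hc' : 0 < 1 / c := by positivity
    constructor
    · have k1 : nrm v ≤ 1 / c * μ (em v) := by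
        rw [one_div, ← div_eq_inv_mul, le_div_iff₀ hc]
        linarith
      nlinarith
    · nlinarith

theorem pow_cmp {a x y κ : ℝ} (ha : 1 ≤ a) (hx : 1 ≤ x) (hy : 1 ≤ y) (h : x ≤ a * y)
    (h0 : 0 < κ) (h1 : κ < 1) : x ^ (1 - κ) ≤ a * y ^ (1 - κ) := by
  have k := Real.rpow_le_rpow (by linarith) h (by linarith : 0 ≤ 1 - κ)
  rw [Real.mul_rpow (by linarith) (by linarith)] at k
  refine k.trans (mul_le_mul_of_nonneg_right ?_ (Real.rpow_nonneg (by linarith) _))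
  have := Real.rpow_le_rpow_of_exponent_le ha (by linarith : 1 - κ ≤ 1)
  rwa [Real.rpow_one] at this

theorem neg_cmp {a x y q : ℝ} (ha : 1 ≤ a) (hx : 1 ≤ x) (hy : 1 ≤ y) (h : x ≤ a * y)
    (hq : 0 ≤ q) : y ^ (-q) ≤ a ^ q * x ^ (-q) := by
  have k : x ^ q ≤ a ^ q * y ^ q := by
    rw [← Real.mul_rpow (by linarith) (by linarith)]
    exact Real.rpow_le_rpow (by linarith) h hq
  have hxq : 0 < x ^ q := Real.rpow_pos_of_pos (by linarith) _
  have hyq : 0 < y ^ q := Real.rpow_pos_of_pos (by linarith) _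
  rw [Real.rpow_neg (by linarith), Real.rpow_neg (by linarith), inv_eq_one_div,
    div_le_iff₀ hyq, mul_assoc]
  have e : a ^ q * ((x ^ q)⁻¹ * y ^ q) = (a ^ q * y ^ q) / x ^ q := by
    field_simp
  rw [e, le_div_iff₀ hxq]
  linarith

theorem one_le_mul_neg {R x q : ℝ} (hx : 1 ≤ x) (h : x ≤ R) (hq : 0 ≤ q) :
    1 ≤ R ^ q * x ^ (-q) := by
  have hxq : 0 < x ^ q := Real.rpow_pos_of_pos (by linarith) _
  rw [Real.rpow_neg (by linarith), ← div_eq_mul_inv, le_div_iff₀ hxq, one_mul]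
  exact Real.rpow_le_rpow (by linarith) h hq

/-- powers of a larger exponent win -/
theorem absorb {b x κ κ1 : ℝ} (hb : 1 ≤ b) (hκ : κ < κ1) (hx : b ^ (1 / (κ1 - κ)) ≤ x) :
    b * x ^ (1 - κ1) ≤ x ^ (1 - κ) := by
  have hb0 : 0 < b := by linarith
  have hx0 : 0 < x := lt_of_lt_of_le (Real.rpow_pos_of_pos hb0 _) hx
  have hd : 0 < κ1 - κ := by linarith
  have k := Real.rpow_le_rpow (Real.rpow_nonneg hb0.le _) hx hd.le
  rw [← Real.rpow_mul hb0.le, one_div, inv_mul_cancel₀ hd.ne', Real.rpow_one] at k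
  have e : x ^ (1 - κ) = x ^ (κ1 - κ) * x ^ (1 - κ1) := by
    rw [← Real.rpow_add hx0]
    congr 1
    ring
  rw [e]
  exact mul_le_mul_of_nonneg_right k (Real.rpow_nonneg hx0.le _)

omit [IsProbabilityMeasure (volume : Measure Ω)] in
theorem def_of_mean (hG : Good T μ) (hm : ∀ v, μ (em v) ≤ mean T v) {κ : ℝ} (h0 : 0 < κ)
    (h1 : κ < 1) (h : ∃ A : ℝ, ∀ v : ℤ × ℤ, mean T v ≤ μ (em v) + A * (1 + μ (em v)) ^ (1 - κ))
    (N : ℕ) (W : Set (ℤ × ℤ)) : Def T N W κ := by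
  obtain ⟨a, ha, hc⟩ := cmp hG.norm
  obtain ⟨A, hA⟩ := h
  refine ⟨N * (max A 0 * a), fun w _ => ?_⟩
  have k1 := hA w
  have k2 := hm ((N : ℤ) • w)
  rw [em_nsmul] at k2
  have hμ0 : 0 ≤ μ (em w) := apply_nonneg μ _
  have hn := nrm_nonneg w
  have k3 := pow_cmp ha (by linarith) (by linarith) (hc w).2 h0 h1
  have hp : 0 ≤ (1 + μ (em w)) ^ (1 - κ) := Real.rpow_nonneg (by linarith) _
  have k4 : A * (1 + μ (em w)) ^ (1 - κ) ≤ max A 0 * (a * (1 + nrm w) ^ (1 - κ)) :=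
    (mul_le_mul_of_nonneg_right (le_max_left A 0) hp).trans
      (mul_le_mul_of_nonneg_left k3 (le_max_right _ _))
  have hN : (0 : ℝ) ≤ N := Nat.cast_nonneg N
  have k5 : N * mean T w ≤ N * (μ (em w) + max A 0 * (a * (1 + nrm w) ^ (1 - κ))) :=
    mul_le_mul_of_nonneg_left (k1.trans (by linarith)) hN
  have e : N * (max A 0 * a) * (1 + nrm w) ^ (1 - κ) =
      N * (max A 0 * (a * (1 + nrm w) ^ (1 - κ))) := by ring
  rw [e]
  linarith

omit [IsProbabilityMeasure (volume : Measure Ω)] in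
theorem mean_of_def (hG : Good T μ) (hsub : ∀ v w, mean T (v + w) ≤ mean T v + mean T w)
    (hlim : ∀ v, ∀ ε : ℝ, 0 < ε → ∀ᶠ n : ℕ in atTop,
      mean T ((n : ℤ) • v) ≤ n * μ (em v) + ε * n)
    {κ : ℝ} (h0 : 0 < κ) (h1 : κ < 1) {N : ℕ} (hN : 2 ≤ N) {W : Set (ℤ × ℤ)} (hW : Net W κ)
    (h : Def T N W κ) :
    ∃ A : ℝ, ∀ v : ℤ × ℤ, mean T v ≤ μ (em v) + A * (1 + μ (em v)) ^ (1 - κ) := by
  obtain ⟨a, ha, hc⟩ := cmp hG.norm
  obtain ⟨B, hB⟩ := h
  obtain ⟨C, hC⟩ := hW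
  have hW' : ∀ v, ∃ w ∈ W, nrm (v - w) ≤ max C 0 * (1 + nrm v) ^ (1 - κ) := fun v => by
    obtain ⟨w, hw, hd⟩ := hC v
    exact ⟨w, hw, hd.trans (mul_le_mul_of_nonneg_right (le_max_left _ _)
      (Real.rpow_nonneg (by linarith [nrm_nonneg v]) _))⟩
  obtain ⟨A, hA0, hA⟩ := up (m := mean T) (μ := fun v => μ (em v)) hsub
    (fun n v => em_nsmul μ n v) hlim h0 h1 hN (le_max_right C 0) hW' hB
  refine ⟨A * a, fun v => (hA v).trans ?_⟩
  have hμ0 : 0 ≤ μ (em v) := apply_nonneg μ _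
  have hn := nrm_nonneg v
  have k3 := mul_le_mul_of_nonneg_left
    (pow_cmp ha (by linarith) (by linarith) (hc v).1 h0 h1) hA0
  show μ (em v) + A * (1 + nrm v) ^ (1 - κ) ≤ _
  rw [mul_assoc]
  linarith

theorem lo_of_pt (hG : Good T μ) {κ κ1 q C : ℝ} (hκ : κ < κ1) (h0 : 0 < κ1) (h1 : κ1 < 1)
    (hq : 0 ≤ q) (hC : 0 ≤ C) (hP : Pt T μ κ1 q C)
    (h : ∃ A : ℝ, ∀ v : ℤ × ℤ, mean T v ≤ μ (em v) + A * (1 + μ (em v)) ^ (1 - κ1)) :
    Lo T κ q := by
  obtain ⟨a, ha, hc⟩ := cmp hG.norm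
  obtain ⟨A, hA⟩ := h
  set b := a * (max A 0 + 1) with hb
  have hb1 : 1 ≤ b := by
    have : 0 ≤ max A 0 := le_max_right _ _
    nlinarith
  set R := b ^ (1 / (κ1 - κ)) with hR
  refine ⟨C * a ^ q + R ^ q, fun v => ?_⟩
  have hμ0 : 0 ≤ μ (em v) := apply_nonneg μ _
  have hn := nrm_nonneg v
  have hR0 : 0 ≤ R := Real.rpow_nonneg (by linarith) _
  have hp : 0 ≤ (1 + nrm v) ^ (-q) := Real.rpow_nonneg (by linarith) _
  rw [add_mul]
  rcases le_total R (1 + nrm v) with hv | hv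
  · have k1 := absorb hb1 hκ hv
    have k2 := pow_cmp ha (by linarith) (by linarith) (hc v).2 h0 h1
    have hp1 : 0 ≤ (1 + μ (em v)) ^ (1 - κ1) := Real.rpow_nonneg (by linarith) _
    have k3 : A * (1 + μ (em v)) ^ (1 - κ1) ≤ max A 0 * (1 + μ (em v)) ^ (1 - κ1) :=
      mul_le_mul_of_nonneg_right (le_max_left A 0) hp1
    have k4 : (max A 0 + 1) * (1 + μ (em v)) ^ (1 - κ1) ≤
        (max A 0 + 1) * (a * (1 + nrm v) ^ (1 - κ1)) :=
      mul_le_mul_of_nonneg_left k2 (by linarith [le_max_right A 0])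
    have e1 : (max A 0 + 1) * (a * (1 + nrm v) ^ (1 - κ1)) = b * (1 + nrm v) ^ (1 - κ1) := by
      rw [hb]; ring
    rw [e1] at k4
    have k5 := neg_cmp ha (by linarith) (by linarith) (hc v).1 hq
    have k6 : (volume : Measure Ω).real {ω | T ω v ≤ mean T v - (1 + nrm v) ^ (1 - κ)} ≤
        (volume : Measure Ω).real {ω | T ω v ≤ μ (em v) - (1 + μ (em v)) ^ (1 - κ1)} := by
      refine measureReal_mono (fun ω hω => ?_) (measure_ne_top _ _)
      have l1 : T ω v ≤ mean T v - (1 + nrm v) ^ (1 - κ) := hω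
      have l2 := hA v
      show T ω v ≤ μ (em v) - (1 + μ (em v)) ^ (1 - κ1)
      linarith
    have k7 := k6.trans (hP v)
    have k8 : C * (1 + μ (em v)) ^ (-q) ≤ C * a ^ q * (1 + nrm v) ^ (-q) := by
      rw [mul_assoc]
      exact mul_le_mul_of_nonneg_left k5 hC
    have k9 : 0 ≤ R ^ q * (1 + nrm v) ^ (-q) := mul_nonneg (Real.rpow_nonneg hR0 _) hp
    linarith
  · have k1 := one_le_mul_neg (by linarith : 1 ≤ 1 + nrm v) hv hq
    have k2 : (volume : Measure Ω).real {ω | T ω v ≤ mean T v - (1 + nrm v) ^ (1 - κ)} ≤ 1 :=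
      measureReal_le_one
    have k3 : 0 ≤ C * a ^ q * (1 + nrm v) ^ (-q) := by
      have : 0 ≤ a ^ q := Real.rpow_nonneg (by linarith) _
      positivity
    linarith

theorem pt_of_lo (hG : Good T μ) (hm : ∀ v, μ (em v) ≤ mean T v) {κ κ1 q : ℝ} (hκ : κ < κ1)
    (h0 : 0 < κ1) (h1 : κ1 < 1) (hq : 0 ≤ q) (h : Lo T κ1 q) :
    ∃ C : ℝ, 0 < C ∧ Pt T μ κ q C := by
  obtain ⟨a, ha, hc⟩ := cmp hG.norm
  obtain ⟨C, hC⟩ := h
  set R := a ^ (1 / (κ1 - κ)) with hR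
  have hR0 : 0 < R := Real.rpow_pos_of_pos (by linarith) _
  have haq : 0 ≤ a ^ q := Real.rpow_nonneg (by linarith) _
  have hRq : 0 < R ^ q := Real.rpow_pos_of_pos hR0 _
  refine ⟨max C 0 * a ^ q + R ^ q, ?_, fun v => ?_⟩
  · have : 0 ≤ max C 0 * a ^ q := mul_nonneg (le_max_right _ _) haq
    linarith
  have hμ0 : 0 ≤ μ (em v) := apply_nonneg μ _
  have hn := nrm_nonneg v
  have hp : 0 ≤ (1 + μ (em v)) ^ (-q) := Real.rpow_nonneg (by linarith) _
  rw [add_mul]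
  rcases le_total R (1 + μ (em v)) with hv | hv
  · have k1 := absorb ha hκ hv
    have k2 := pow_cmp ha (by linarith) (by linarith) (hc v).1 h0 h1
    have k5 := neg_cmp ha (by linarith) (by linarith) (hc v).2 hq
    have k6 : (volume : Measure Ω).real {ω | T ω v ≤ μ (em v) - (1 + μ (em v)) ^ (1 - κ)} ≤
        (volume : Measure Ω).real {ω | T ω v ≤ mean T v - (1 + nrm v) ^ (1 - κ1)} := by
      refine measureReal_mono (fun ω hω => ?_) (measure_ne_top _ _)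
      have l1 : T ω v ≤ μ (em v) - (1 + μ (em v)) ^ (1 - κ) := hω
      have l2 := hm v
      show T ω v ≤ mean T v - (1 + nrm v) ^ (1 - κ1)
      linarith
    have k7 := k6.trans (hC v)
    have hpn : 0 ≤ (1 + nrm v) ^ (-q) := Real.rpow_nonneg (by linarith) _
    have k8 : C * (1 + nrm v) ^ (-q) ≤ max C 0 * a ^ q * (1 + μ (em v)) ^ (-q) := by
      rw [mul_assoc]
      exact (mul_le_mul_of_nonneg_right (le_max_left C 0) hpn).trans
        (mul_le_mul_of_nonneg_left k5 (le_max_right _ _))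
    have k9 : 0 ≤ R ^ q * (1 + μ (em v)) ^ (-q) := mul_nonneg hRq.le hp
    linarith
  · have k1 := one_le_mul_neg (by linarith : 1 ≤ 1 + μ (em v)) hv hq
    have k2 : (volume : Measure Ω).real {ω | T ω v ≤ μ (em v) - (1 + μ (em v)) ^ (1 - κ)} ≤ 1 :=
      measureReal_le_one
    have k3 : 0 ≤ max C 0 * a ^ q * (1 + μ (em v)) ^ (-q) :=
      mul_nonneg (mul_nonneg (le_max_right _ _) haq) hp
    linarith

/-- the two-sided criterion -/
theorem both (hX : Iid X) (μ : Seminorm ℝ (ℝ × ℝ)) {K : ℝ} (hK : K < 1)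
    {T : Ω → ℤ × ℤ → ℝ} (hT : T = fun ω v => D (env X ω) 0 v) (hG : Good T μ)
    (hlim : ∀ z : ℤ × ℤ, ∀ᵐ ω ∂(volume : Measure Ω),
        Tendsto (fun n : ℕ => T ω ((n : ℤ) • z) / (n : ℝ)) atTop (𝓝 (μ (em z))))
    {N : ℕ} (hN : 2 ≤ N) {W : Set (ℤ × ℤ)} (hW : ∀ κ : ℝ, 0 < κ → κ < K → Net W κ) :
    (∀ κ : ℝ, 0 < κ → κ < K → ∀ q : ℝ, 0 < q →
      Asymptotics.IsBigO atTop
        (fun t : ℝ => (volume : Measure Ω).real (Esc T μ κ t)) (fun t : ℝ => t ^ (-q)) ∧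
      Asymptotics.IsBigO atTop
        (fun t : ℝ => (volume : Measure Ω).real (Bad T μ κ t)) (fun t : ℝ => t ^ (-q))) ↔
    (∀ κ : ℝ, 0 < κ → κ < K → Def T N W κ ∧ Lo T κ (3 + 2 ^ (1 / (1 - K)))) := by
  have hsub : ∀ v w, mean T (v + w) ≤ mean T v + mean T w := by
    rw [hT]; exact mean_sub hX
  have hm : ∀ v, μ (em v) ≤ mean T v := fun v => by
    have := cFAT Ω X hX v (μ (em v)) (by rw [hT] at hlim; exact hlim v)
    rw [hT]; exact this
  have hl := mean_lim hG hlim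
  have hq : (0 : ℝ) ≤ 3 + 2 ^ (1 / (1 - K)) := by positivity
  rw [two_sided hX μ hK hT hG]
  have ho := (outer_tfae hX μ hG.norm hK hT).out 3 5
  constructor
  · intro h κ h0 h1
    have h2 := ho.1 fun κ h0 h1 => (h κ h0 h1).1
    obtain ⟨C, hC, hP⟩ := h2 ((κ + K) / 2) (by linarith) (by linarith)
    exact ⟨def_of_mean hG hm h0 (h1.trans hK) (h κ h0 h1).2 N W,
      lo_of_pt hG (by linarith) (by linarith) (by linarith) hq hC.le hP
        (h ((κ + K) / 2) (by linarith) (by linarith)).2⟩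
  · intro h
    have h2 := ho.2 fun κ h0 h1 => pt_of_lo hG hm (κ1 := (κ + K) / 2) (by linarith)
      (by linarith) (by linarith) hq (h ((κ + K) / 2) (by linarith) (by linarith)).2
    exact fun κ h0 h1 => ⟨h2 κ h0 h1,
      mean_of_def hG hsub hl h0 (h1.trans hK) hN (hW κ h0 h1) (h κ h0 h1).1⟩

/-- the outer half from the lower tails about the mean -/
theorem outer (hX : Iid X) (μ : Seminorm ℝ (ℝ × ℝ)) {K : ℝ} (hK : K < 1)
    {T : Ω → ℤ × ℤ → ℝ} (hT : T = fun ω v => D (env X ω) 0 v) (hG : Good T μ)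
    (hlim : ∀ z : ℤ × ℤ, ∀ᵐ ω ∂(volume : Measure Ω),
        Tendsto (fun n : ℕ => T ω ((n : ℤ) • z) / (n : ℝ)) atTop (𝓝 (μ (em z))))
    (h : ∀ κ : ℝ, 0 < κ → κ < K → Lo T κ (3 + 2 ^ (1 / (1 - K)))) :
    ∀ κ : ℝ, 0 < κ → κ < K → ∀ q : ℝ, 0 < q → Asymptotics.IsBigO atTop
        (fun t : ℝ => (volume : Measure Ω).real (Esc T μ κ t)) (fun t : ℝ => t ^ (-q)) := by
  have hm : ∀ v, μ (em v) ≤ mean T v := fun v => by
    have := cFAT Ω X hX v (μ (em v)) (by rw [hT] at hlim; exact hlim v)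
    rw [hT]; exact this
  have hq : (0 : ℝ) ≤ 3 + 2 ^ (1 / (1 - K)) := by positivity
  exact ((outer_tfae hX μ hG.norm hK hT).out 0 5).2 fun κ h0 h1 =>
    pt_of_lo hG hm (κ1 := (κ + K) / 2) (by linarith)
      (by linarith) (by linarith) hq (h ((κ + K) / 2) (by linarith) (by linarith))

/-- the inner half -/
theorem inner (hX : Iid X) (μ : Seminorm ℝ (ℝ × ℝ)) {K : ℝ} (hK : K < 1)
    {T : Ω → ℤ × ℤ → ℝ} (hT : T = fun ω v => D (env X ω) 0 v) (hG : Good T μ)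
    (hlim : ∀ z : ℤ × ℤ, ∀ᵐ ω ∂(volume : Measure Ω),
        Tendsto (fun n : ℕ => T ω ((n : ℤ) • z) / (n : ℝ)) atTop (𝓝 (μ (em z))))
    {N : ℕ} (hN : 2 ≤ N) {W : Set (ℤ × ℤ)} (hW : ∀ κ : ℝ, 0 < κ → κ < K → Net W κ) :
    (∀ κ : ℝ, 0 < κ → κ < K → ∀ q : ℝ, 0 < q →
      Asymptotics.IsBigO atTop
        (fun t : ℝ => (volume : Measure Ω).real (Bad T μ κ t)) (fun t : ℝ => t ^ (-q))) ↔
    (∀ κ : ℝ, 0 < κ → κ < K → Def T N W κ ∧ Dev T W κ) := by
  have hsub : ∀ v w, mean T (v + w) ≤ mean T v + mean T w := by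
    rw [hT]; exact mean_sub hX
  have hm : ∀ v, μ (em v) ≤ mean T v := fun v => by
    have := cFAT Ω X hX v (μ (em v)) (by rw [hT] at hlim; exact hlim v)
    rw [hT]; exact this
  have hl := mean_lim hG hlim
  obtain ⟨a, ha, hc⟩ := cmp hG.norm
  have hti : (∀ κ : ℝ, 0 < κ → κ < K → ∀ q : ℝ, 0 < q → Asymptotics.IsBigO atTop
        (fun t : ℝ => (volume : Measure Ω).real (Bad T μ κ t)) (fun t : ℝ => t ^ (-q))) ↔
      ∀ κ : ℝ, 0 < κ → κ < K → ∃ A : ℝ, ∀ v : ℤ × ℤ,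
        ∫ ω, |T ω v - μ (em v)| ∂(volume : Measure Ω) ≤ A * (1 + μ (em v)) ^ (1 - κ) :=
    (tfae cNORM cDD2 cEE hG K hK).out 1 4
  rw [hti]
  have hi : ∀ (v : ℤ × ℤ) (c : ℝ), Integrable (fun ω => |T ω v - c|) (volume : Measure Ω) :=
    fun v c => ((hG.int v).sub (integrable_const _)).abs
  have hmm : ∀ v, mean T v - μ (em v) ≤ ∫ ω, |T ω v - μ (em v)| ∂(volume : Measure Ω) := by
    intro v
    have k : ∫ ω, (T ω v - μ (em v)) ∂(volume : Measure Ω) ≤
        ∫ ω, |T ω v - μ (em v)| ∂(volume : Measure Ω) :=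
      integral_mono ((hG.int v).sub (integrable_const (μ (em v)))) (hi v (μ (em v)))
        fun ω => le_abs_self _
    rw [integral_sub (hG.int _) (integrable_const _)] at k
    simp only [integral_const, probReal_univ, one_smul] at k
    exact k
  have htri : ∀ (v : ℤ × ℤ) (b c : ℝ), ∫ ω, |T ω v - b| ∂(volume : Measure Ω) ≤
      ∫ ω, |T ω v - c| ∂(volume : Measure Ω) + |c - b| := by
    intro v b c
    have k : ∫ ω, |T ω v - b| ∂(volume : Measure Ω) ≤
        ∫ ω, (|T ω v - c| + |c - b|) ∂(volume : Measure Ω) :=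
      integral_mono (hi v b) ((hi v c).add (integrable_const |c - b|)) fun ω =>
        abs_sub_le _ _ _
    rw [integral_add (hi v c) (integrable_const _)] at k
    simp only [integral_const, probReal_univ, one_smul] at k
    exact k
  constructor
  · intro h κ h0 h1
    obtain ⟨A, hA⟩ := h κ h0 h1
    have h2 : ∀ v : ℤ × ℤ, mean T v ≤ μ (em v) + A * (1 + μ (em v)) ^ (1 - κ) := fun v => by
      have := hmm v
      have := hA v
      linarith
    refine ⟨def_of_mean hG hm h0 (h1.trans hK) ⟨A, h2⟩ N W, 2 * max A 0 * a, fun v _ => ?_⟩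
    have k1 := htri v (mean T v) (μ (em v))
    rw [abs_sub_comm, abs_of_nonneg (sub_nonneg.2 (hm v))] at k1
    have hμ0 : 0 ≤ μ (em v) := apply_nonneg μ _
    have hn := nrm_nonneg v
    have k2 := pow_cmp ha (by linarith) (by linarith) (hc v).2 h0 (h1.trans hK)
    have hp : 0 ≤ (1 + μ (em v)) ^ (1 - κ) := Real.rpow_nonneg (by linarith) _
    have k3 : A * (1 + μ (em v)) ^ (1 - κ) ≤ max A 0 * (a * (1 + nrm v) ^ (1 - κ)) :=
      (mul_le_mul_of_nonneg_right (le_max_left A 0) hp).trans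
        (mul_le_mul_of_nonneg_left k2 (le_max_right _ _))
    have e : 2 * max A 0 * a * (1 + nrm v) ^ (1 - κ) =
        2 * (max A 0 * (a * (1 + nrm v) ^ (1 - κ))) := by ring
    rw [e]
    have := hA v
    have := h2 v
    linarith
  · intro h κ h0 h1
    obtain ⟨A, hA⟩ := mean_of_def hG hsub hl h0 (h1.trans hK) hN (hW κ h0 h1) (h κ h0 h1).1
    obtain ⟨B, hB⟩ := dev_all hX hT h0 (h1.trans hK) (hW κ h0 h1) (h κ h0 h1).2
    refine ⟨max B 0 * a + A, fun v => ?_⟩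
    have k1 := htri v (μ (em v)) (mean T v)
    rw [abs_of_nonneg (sub_nonneg.2 (hm v))] at k1
    have hμ0 : 0 ≤ μ (em v) := apply_nonneg μ _
    have hn := nrm_nonneg v
    have k2 := pow_cmp ha (by linarith) (by linarith) (hc v).1 h0 (h1.trans hK)
    have hp : 0 ≤ (1 + nrm v) ^ (1 - κ) := Real.rpow_nonneg (by linarith) _
    have k3 : B * (1 + nrm v) ^ (1 - κ) ≤ max B 0 * (a * (1 + μ (em v)) ^ (1 - κ)) :=
      (mul_le_mul_of_nonneg_right (le_max_left B 0) hp).trans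
        (mul_le_mul_of_nonneg_left k2 (le_max_right _ _))
    have e : (max B 0 * a + A) * (1 + μ (em v)) ^ (1 - κ) =
        max B 0 * (a * (1 + μ (em v)) ^ (1 - κ)) + A * (1 + μ (em v)) ^ (1 - κ) := by ring
    rw [e]
    have := hA v
    have := hB v (Set.mem_univ v)
    linarith

/-- the nonrandom fluctuations at one exponent -/
theorem one (hX : Iid X) (μ : Seminorm ℝ (ℝ × ℝ))
    {T : Ω → ℤ × ℤ → ℝ} (hT : T = fun ω v => D (env X ω) 0 v) (hG : Good T μ)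
    (hlim : ∀ z : ℤ × ℤ, ∀ᵐ ω ∂(volume : Measure Ω),
        Tendsto (fun n : ℕ => T ω ((n : ℤ) • z) / (n : ℝ)) atTop (𝓝 (μ (em z))))
    {κ : ℝ} (h0 : 0 < κ) (h1 : κ < 1) {N : ℕ} (hN : 2 ≤ N) {W : Set (ℤ × ℤ)} (hW : Net W κ) :
    (∃ A : ℝ, ∀ v : ℤ × ℤ, mean T v ≤ μ (em v) + A * (1 + nrm v) ^ (1 - κ)) ↔ Def T N W κ := by
  have hsub : ∀ v w, mean T (v + w) ≤ mean T v + mean T w := by
    rw [hT]; exact mean_sub hX
  have hm : ∀ v, μ (em v) ≤ mean T v := fun v => by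
    have := cFAT Ω X hX v (μ (em v)) (by rw [hT] at hlim; exact hlim v)
    rw [hT]; exact this
  have hl := mean_lim hG hlim
  obtain ⟨a, ha, hc⟩ := cmp hG.norm
  constructor
  · rintro ⟨A, hA⟩
    refine def_of_mean hG hm h0 h1 ⟨max A 0 * a, fun v => (hA v).trans ?_⟩ N W
    have hμ0 : 0 ≤ μ (em v) := apply_nonneg μ _
    have hn := nrm_nonneg v
    have k2 := pow_cmp ha (by linarith) (by linarith) (hc v).1 h0 h1
    have hp : 0 ≤ (1 + nrm v) ^ (1 - κ) := Real.rpow_nonneg (by linarith) _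
    have k3 : A * (1 + nrm v) ^ (1 - κ) ≤ max A 0 * (a * (1 + μ (em v)) ^ (1 - κ)) :=
      (mul_le_mul_of_nonneg_right (le_max_left A 0) hp).trans
        (mul_le_mul_of_nonneg_left k2 (le_max_right _ _))
    rw [mul_assoc]
    linarith
  · intro h
    obtain ⟨A, hA⟩ := mean_of_def hG hsub hl h0 h1 hN hW h
    refine ⟨max A 0 * a, fun v => (hA v).trans ?_⟩
    have hμ0 : 0 ≤ μ (em v) := apply_nonneg μ _
    have hn := nrm_nonneg v
    have k2 := pow_cmp ha (by linarith) (by linarith) (hc v).2 h0 h1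
    have hp : 0 ≤ (1 + μ (em v)) ^ (1 - κ) := Real.rpow_nonneg (by linarith) _
    have k3 : A * (1 + μ (em v)) ^ (1 - κ) ≤ max A 0 * (a * (1 + nrm v) ^ (1 - κ)) :=
      (mul_le_mul_of_nonneg_right (le_max_left A 0) hp).trans
        (mul_le_mul_of_nonneg_left k2 (le_max_right _ _))
    rw [mul_assoc]
    linarith

end Pool.Agent.U17.FD
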